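import Pool.Agent.H26.REM.Targets

/-!
# Radicals of prime power level
-/

set_option autoImplicit false

namespace Pool.Agent.H50.REM

open Pool.Agent.H26.REM
open NumberField Height Finset Polynomial

/-- The constant term. -/
theorem cst (q k : ℕ) (A : ℤ) (hq : q.Prime) (hk : 1 ≤ k)
    (h : (q : ℤ) ∣ A ∧ ¬ (q : ℤ) ^ 2 ∣ A ∨ ¬ (q : ℤ) ∣ A ∧ ¬ (q : ℤ) ^ 2 ∣ A ^ (q - 1) - 1) :
    ∃ c : ℤ, (q : ℤ) ∣ c ^ (q ^ k) - A ∧ ¬ (q : ℤ) ^ 2 ∣ c ^ (q ^ k) - A := by
  have hqi : Prime (q : ℤ) := Nat.prime_iff_prime_int.1 hq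
  rcases h with ⟨h1, h2⟩ | ⟨h1, h2⟩
  · refine ⟨0, ?_, ?_⟩
    · rw [zero_pow (pow_ne_zero _ hq.ne_zero), zero_sub, dvd_neg]
      exact h1
    · rw [zero_pow (pow_ne_zero _ hq.ne_zero), zero_sub, dvd_neg]
      exact h2
  · have := Fact.mk hq
    have hfer : ∀ n : ℕ, (q : ℤ) ∣ A ^ (q ^ n) - A := by
      intro n
      rw [← ZMod.intCast_zmod_eq_zero_iff_dvd]
      push_cast
      rw [ZMod.pow_card_pow, sub_self]
    refine ⟨A, hfer k, ?_⟩
    intro hc
    have h3 : (q : ℤ) ^ 2 ∣ A ^ (q ^ k) - A ^ q := by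
      have h4 := dvd_sub_pow_of_dvd_sub (hfer (k - 1)) 1
      rw [pow_one, ← pow_mul, ← pow_succ, Nat.sub_add_cancel hk] at h4
      exact h4
    have h5 : (q : ℤ) ^ 2 ∣ A ^ q - A := by
      have := dvd_sub hc h3
      rwa [show A ^ (q ^ k) - A - (A ^ (q ^ k) - A ^ q) = A ^ q - A by ring] at this
    have h6 : A ^ q - A = A * (A ^ (q - 1) - 1) := by
      have : A ^ q = A * A ^ (q - 1) := by
        rw [← pow_succ', Nat.sub_add_cancel hq.one_le]
      rw [this]; ring
    rw [h6] at h5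
    have h7 : IsCoprime ((q : ℤ) ^ 2) A :=
      IsCoprime.pow_left ((Prime.coprime_iff_not_dvd hqi).2 h1)
    exact h2 (h7.dvd_of_dvd_mul_left h5)

/-- The polynomial. -/
noncomputable def FF (Q : ℕ) (c A : ℤ) : ℤ[X] := (X + C c) ^ Q - C A

theorem FF_monic {Q : ℕ} (hQ : 0 < Q) (c A : ℤ) : (FF Q c A).Monic ∧
    (FF Q c A).natDegree = Q := by
  have h1 : ((X + C c : ℤ[X]) ^ Q).Monic := (monic_X_add_C c).pow Q
  have h2 : ((X + C c : ℤ[X]) ^ Q).natDegree = Q := by
    rw [(monic_X_add_C c).natDegree_pow, natDegree_X_add_C, mul_one]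
  have h3 : (C A : ℤ[X]).natDegree < ((X + C c : ℤ[X]) ^ Q).natDegree := by
    rw [h2, natDegree_C]; exact hQ
  have h4 : (C A : ℤ[X]).degree < ((X + C c : ℤ[X]) ^ Q).degree := degree_lt_degree h3
  exact ⟨h1.sub_of_left h4, by rw [FF, natDegree_sub_eq_left_of_natDegree_lt h3, h2]⟩

theorem FF_coeff_zero (Q : ℕ) (c A : ℤ) : (FF Q c A).coeff 0 = c ^ Q - A := by
  unfold FF
  rw [coeff_sub, coeff_X_add_C_pow, coeff_C_zero]
  simp

theorem FF_coeff {Q : ℕ} {n : ℕ} (hn : n ≠ 0) (c A : ℤ) :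
    (FF Q c A).coeff n = c ^ (Q - n) * (Q.choose n : ℤ) := by
  unfold FF
  rw [coeff_sub, coeff_X_add_C_pow, coeff_C, if_neg hn, sub_zero]

theorem FF_eis (q k : ℕ) (c A : ℤ) (hq : q.Prime) (h1 : (q : ℤ) ∣ c ^ (q ^ k) - A)
    (h2 : ¬ (q : ℤ) ^ 2 ∣ c ^ (q ^ k) - A) :
    (FF (q ^ k) c A).IsEisensteinAt (Submodule.span ℤ {(q : ℤ)}) := by
  have hqi : Prime (q : ℤ) := Nat.prime_iff_prime_int.1 hq
  obtain ⟨hm, hd⟩ := FF_monic (pow_pos hq.pos k) c A
  refine hm.isEisensteinAt_of_mem_of_notMem ?_ ?_ ?_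
  · change Ideal.span {(q : ℤ)} ≠ ⊤
    rw [Ne, Ideal.span_singleton_eq_top]
    exact hqi.not_isUnit
  · intro n hn
    rw [hd] at hn
    change (FF (q ^ k) c A).coeff n ∈ Ideal.span {(q : ℤ)}
    rw [Ideal.mem_span_singleton]
    by_cases h0 : n = 0
    · rw [h0, FF_coeff_zero]
      exact h1
    · rw [FF_coeff h0]
      apply Dvd.dvd.mul_left
      have := hq.dvd_choose_pow h0 hn.ne
      exact_mod_cast this
  · change (FF (q ^ k) c A).coeff 0 ∉ (Ideal.span {(q : ℤ)}) ^ 2
    rw [FF_coeff_zero, Ideal.span_singleton_pow, Ideal.mem_span_singleton]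
    exact h2

/-- Discriminants of families of integers. -/
theorem discr_cast {E : Type} [Field E] [NumberField E] {n : ℕ} (w : Fin n → 𝓞 E) :
    ((Algebra.discr ℤ w : ℤ) : ℚ) = Algebra.discr ℚ fun j => (w j : E) := by
  rw [Algebra.discr_def, Algebra.discr_def]
  have h1 : ((Algebra.traceMatrix ℤ w).det : ℚ) =
      ((Algebra.traceMatrix ℤ w).map (Int.castRingHom ℚ)).det := by
    rw [← RingHom.mapMatrix_apply, ← RingHom.map_det]
    rfl
  rw [h1]
  congr 1
  ext i j
  rw [Matrix.map_apply, Algebra.traceMatrix_apply, Algebra.traceMatrix_apply,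
    Algebra.traceForm_apply, Algebra.traceForm_apply]
  change ((Algebra.trace ℤ (𝓞 E) (w i * w j) : ℤ) : ℚ) = _
  rw [Algebra.coe_trace_int]
  rfl

theorem pf_EIS : T_EIS := by
  intro q k A hq hk h E _ _ π hgen hπ
  obtain ⟨c, hc1, hc2⟩ := cst q k A hq hk h
  have hqi : Prime (q : ℤ) := Nat.prime_iff_prime_int.1 hq
  set Q := q ^ k with hQ
  have hQ0 : 0 < Q := pow_pos hq.pos k
  set F := FF Q c A with hF
  obtain ⟨hFm, hFd⟩ := FF_monic hQ0 c A
  have hEis := FF_eis q k c A hq hc1 hc2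
  rw [← hQ, ← hF] at hEis
  rw [← hF] at hFm hFd
  have hFirr : Irreducible F := hEis.irreducible
    (by
      change (Ideal.span {(q : ℤ)}).IsPrime
      rw [Ideal.span_singleton_prime hqi.ne_zero]
      exact hqi) hFm.isPrimitive (by rw [hFd]; exact hQ0)
  set α : E := π - c with hα
  have hπα : π = α + c := by rw [hα]; ring
  have hFα : aeval α F = 0 := by
    rw [hF, FF, map_sub, map_pow, map_add, aeval_X, aeval_C, aeval_C]
    simp only [algebraMap_int_eq, eq_intCast]
    rw [← hπα, hπ, sub_self]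
  have hint : IsIntegral ℤ α := ⟨F, hFm, hFα⟩
  have hminQ : minpoly ℚ α = F.map (algebraMap ℤ ℚ) := by
    symm
    apply minpoly.eq_of_irreducible_of_monic
    · exact (hFm.irreducible_iff_irreducible_map_fraction_map (K := ℚ)).1 hFirr
    · rw [aeval_map_algebraMap]; exact hFα
    · exact hFm.map _
  have hminZ : minpoly ℤ α = F := by
    have h1 := minpoly.isIntegrallyClosed_eq_field_fractions' ℚ hint
    rw [hminQ] at h1
    exact (map_injective (algebraMap ℤ ℚ) (algebraMap ℤ ℚ).injective_int h1).symm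
  have hintQ : IsIntegral ℚ α := hint.tower_top
  have hadj : Algebra.adjoin ℚ {α} = ⊤ := by
    have h1 : IntermediateField.adjoin ℚ {α} = ⊤ := by
      rw [eq_top_iff, ← hgen, IntermediateField.adjoin_le_iff]
      intro x hx
      rw [Set.mem_singleton_iff] at hx
      rw [hx, hπα]
      exact add_mem (IntermediateField.mem_adjoin_simple_self ℚ α) (intCast_mem _ _)
    have h2 := IntermediateField.adjoin_simple_toSubalgebra_of_isAlgebraic hintQ.isAlgebraic
    rw [h1, IntermediateField.top_toSubalgebra] at h2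
    exact h2.symm
  set B := PowerBasis.ofAdjoinEqTop' hintQ hadj with hB
  have hBg : B.gen = α := PowerBasis.ofAdjoinEqTop'_gen hintQ hadj
  have hBd : B.dim = Q := by
    rw [hB, PowerBasis.ofAdjoinEqTop'_dim, hminQ, hFm.natDegree_map, hFd]
  have hfin : Module.finrank ℚ E = Q := by rw [B.finrank, hBd]
  refine ⟨hfin, ?_⟩
  -- integers
  let α' : 𝓞 E := ⟨α, hint⟩
  have hα' : (α' : E) = α := rfl
  have hπint : IsIntegral ℤ π := by
    rw [hπα]
    exact hint.add (isIntegral_algebraMap (R := ℤ) (x := c))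
  let π' : 𝓞 E := ⟨π, hπint⟩
  have hπ' : (π' : E) = π := rfl
  set w : Fin Q → 𝓞 E := fun j => α' ^ (j : ℕ) with hw
  have hcard : Fintype.card (Module.Free.ChooseBasisIndex ℤ (𝓞 E)) = Q := by
    rw [← hfin, ← RingOfIntegers.rank, Module.finrank_eq_card_chooseBasisIndex]
  let b' : Module.Basis (Fin Q) ℤ (𝓞 E) :=
    (RingOfIntegers.basis E).reindex (Fintype.equivFinOfCardEq hcard)
  have hdE : Algebra.discr ℤ b' = discr E := discr_eq_discr E b'
  set P : Matrix (Fin Q) (Fin Q) ℤ := b'.toMatrix w with hP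
  have hdw : Algebra.discr ℤ w = P.det ^ 2 * discr E := by
    rw [← hdE, ← Algebra.discr_of_matrix_vecMul, hP, b'.toMatrix_map_vecMul]
  -- the discriminant of the powers
  have hdw2 : (q : ℤ) ^ (k * Q) ∣ Algebra.discr ℤ w := by
    have h1 : ((Algebra.discr ℤ w : ℤ) : ℚ) = Algebra.discr ℚ B.basis := by
      rw [discr_cast]
      have h2 : ∀ n : ℕ, B.dim = n → Algebra.discr ℚ (fun j : Fin n => α ^ (j : ℕ)) =
          Algebra.discr ℚ B.basis := by
        intro n hn
        subst hn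
        congr 1
        funext j
        rw [B.coe_basis, hBg]
      rw [← h2 Q hBd]
      congr 1
    rw [Algebra.discr_powerBasis_eq_norm, hBg, hminQ, derivative_map, aeval_map_algebraMap] at h1
    have h3 : aeval α (derivative F) = algebraMap ℚ E (Q : ℚ) * π ^ (Q - 1) := by
      rw [hF, FF, derivative_sub, derivative_C, sub_zero, derivative_X_add_C_pow, map_mul,
        map_pow, map_add, aeval_X, aeval_C, aeval_C]
      simp only [algebraMap_int_eq, eq_intCast]
      rw [← hπα]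
      simp
    rw [h3, map_mul, Algebra.norm_algebraMap, hfin, map_pow, ← hπ', ← Algebra.coe_norm_int] at h1
    have h4 : Algebra.discr ℤ w = (-1) ^ (Q * (Q - 1) / 2) *
        ((Q : ℤ) ^ Q * Algebra.norm ℤ π' ^ (Q - 1)) := by
      have : ((Algebra.discr ℤ w : ℤ) : ℚ) = (((-1) ^ (Q * (Q - 1) / 2) *
        ((Q : ℤ) ^ Q * Algebra.norm ℤ π' ^ (Q - 1)) : ℤ) : ℚ) := by
        rw [h1]; push_cast; rfl
      exact_mod_cast this
    rw [h4]
    apply Dvd.dvd.mul_left
    apply Dvd.dvd.mul_right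
    rw [hQ]
    push_cast
    rw [← pow_mul]
  -- the index
  have := Fact.mk hq
  have hdet : ¬ (q : ℤ) ∣ P.det := by
    intro hd
    have h1 : (P.map (Int.castRingHom (ZMod q))).det = 0 := by
      rw [← RingHom.mapMatrix_apply, ← RingHom.map_det]
      exact (ZMod.intCast_zmod_eq_zero_iff_dvd _ _).2 hd
    obtain ⟨v, hv0, hv⟩ := Matrix.exists_mulVec_eq_zero_iff.2 h1
    set u : Fin Q → ℤ := fun j => ((v j).val : ℤ) with hu
    have huv : ∀ j, ((u j : ℤ) : ZMod q) = v j := by
      intro j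
      rw [hu]
      push_cast
      exact ZMod.natCast_zmod_val (v j)
    set z : 𝓞 E := ∑ j, u j • w j with hz
    have hrepr : ∀ i, (q : ℤ) ∣ b'.repr z i := by
      intro i
      rw [← ZMod.intCast_zmod_eq_zero_iff_dvd]
      have h2 := congrFun hv i
      rw [Matrix.mulVec, dotProduct, Pi.zero_apply] at h2
      rw [← h2, hz, map_sum, Finsupp.finsetSum_apply]
      push_cast
      refine Finset.sum_congr rfl fun j _ => ?_
      rw [map_zsmul, Finsupp.smul_apply, smul_eq_mul, Matrix.map_apply, hP,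
        Module.Basis.toMatrix_apply]
      push_cast
      rw [huv, mul_comm]
      rfl
    choose g hg using hrepr
    set z' : 𝓞 E := ∑ i, g i • b' i with hz'
    have hzz : z = (q : ℤ) • z' := by
      rw [← b'.sum_repr z, hz', Finset.smul_sum]
      refine Finset.sum_congr rfl fun i _ => ?_
      rw [hg, mul_smul]
    have hzE : (z : E) = ∑ j, (u j : E) * α ^ (j : ℕ) := by
      rw [hz]
      push_cast
      refine Finset.sum_congr rfl fun j _ => ?_
      rw [zsmul_eq_mul]
      push_cast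
      rfl
    have hmem : (q : ℤ) • (z' : E) ∈ Algebra.adjoin ℤ ({B.gen} : Set E) := by
      have h2 : (q : ℤ) • (z' : E) = (z : E) := by
        rw [hzz]
        rfl
      rw [h2, hzE, hBg]
      refine Subalgebra.sum_mem _ fun j _ => ?_
      exact Subalgebra.mul_mem _ (Subalgebra.intCast_mem _ _)
        (Subalgebra.pow_mem _ (Algebra.self_mem_adjoin_singleton ℤ α) _)
    have hmem2 := mem_adjoin_of_smul_prime_smul_of_minpoly_isEisensteinAt (R := ℤ) (K := ℚ)
      (L := E) (B := B) hqi (by rw [hBg]; exact hint) z'.isIntegral_coe hmem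
      (by rw [hBg, hminZ]; exact hEis)
    rw [hBg, Algebra.adjoin_singleton_eq_range_aeval] at hmem2
    obtain ⟨G, hG⟩ := hmem2
    set G' := G %ₘ F with hG'
    have hG2 : aeval α G' = (z' : E) := by
      rw [hG', aeval_modByMonic_eq_self_of_root hFα]
      exact hG
    set H : ℤ[X] := (∑ j : Fin Q, C (u j) * X ^ (j : ℕ)) - C (q : ℤ) * G' with hH
    have hHα : aeval α H = 0 := by
      rw [hH, map_sub, map_sum, map_mul, aeval_C, hG2]
      have h3 : ∑ j : Fin Q, aeval α (C (u j) * X ^ (j : ℕ)) = (z : E) := by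
        rw [hzE]
        refine Finset.sum_congr rfl fun j _ => ?_
        rw [map_mul, aeval_C, map_pow, aeval_X]
        rfl
      have h4 : algebraMap ℤ E (q : ℤ) * (z' : E) = (z : E) := by
        rw [hzz]
        change _ = (q : ℤ) • (z' : E)
        rw [zsmul_eq_mul]
        rfl
      rw [h3, h4, sub_self]
    have hHd : H.degree < F.degree := by
      have hFdeg : F.degree = Q := by
        rw [degree_eq_natDegree hFm.ne_zero, hFd]
      rw [hH]
      refine lt_of_le_of_lt (degree_sub_le _ _) (max_lt ?_ ?_)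
      · rw [hFdeg]
        exact degree_sum_fin_lt u
      · rw [degree_C_mul hqi.ne_zero]
        exact degree_modByMonic_lt _ hFm
    have hH0 : H = 0 := by
      have h5 : F ∣ H := by
        rw [← hminZ]
        exact minpoly.isIntegrallyClosed_dvd hint hHα
      by_contra hne
      have := degree_le_of_dvd h5 hne
      exact absurd hHd (not_lt.2 this)
    apply hv0
    funext j
    rw [Pi.zero_apply, ← huv j, ZMod.intCast_zmod_eq_zero_iff_dvd]
    have h6 := congrArg (fun p => coeff p (j : ℕ)) hH0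
    simp only [hH, coeff_sub, coeff_zero, finsetSum_coeff, coeff_C_mul, coeff_X_pow] at h6
    have h7 : ∑ x : Fin Q, u x * (if (j : ℕ) = (x : ℕ) then 1 else 0) = u j := by
      rw [Finset.sum_eq_single j]
      · simp
      · intro x _ hx
        rw [if_neg, mul_zero]
        intro h8
        exact hx (Fin.ext h8.symm)
      · intro h8
        exact absurd (Finset.mem_univ _) h8
    rw [h7] at h6
    exact ⟨G'.coeff j, by linarith⟩
  rw [hdw] at hdw2
  have hcop : IsCoprime ((q : ℤ) ^ (k * Q)) (P.det ^ 2) :=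
    IsCoprime.pow ((Prime.coprime_iff_not_dvd hqi).2 hdet)
  exact hcop.dvd_of_dvd_mul_left hdw2

end Pool.Agent.H50.REM
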