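import Pool.Agent.H26.REM.Targets

/-!
# The lower bound for the Gram determinant of the lattice of the pairs
-/

set_option autoImplicit false

namespace Pool.Agent.H50.REM

open Pool.Agent.H26.REM
open NumberField Height Finset Polynomial

section gram
variable {E E' : Type} [NormedAddCommGroup E] [InnerProductSpace ℂ E]
  [NormedAddCommGroup E'] [InnerProductSpace ℂ E']

theorem GD_equiv {ι κ : Type} [Fintype ι] [DecidableEq ι] [Fintype κ] [DecidableEq κ]
    (e : ι ≃ κ) (v : κ → E) : GD (v ∘ e) = GD v := by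
  unfold GD
  have : Matrix.gram ℂ (v ∘ e) = (Matrix.gram ℂ v).submatrix e e := rfl
  rw [this, Matrix.det_submatrix_equiv_self]

theorem GD_inner {ι : Type} [Fintype ι] [DecidableEq ι] (v : ι → E) (v' : ι → E')
    (h : ∀ i j, inner ℂ (v i) (v j) = inner ℂ (v' i) (v' j)) : GD v = GD v' := by
  unfold GD
  congr 2
  ext i j
  exact h i j

theorem GD_scale {ι : Type} [Fintype ι] [DecidableEq ι] (c : ℂ) (v : ι → E) :
    GD (fun i => c • v i) = ‖c‖ ^ (2 * Fintype.card ι) * GD v := by
  unfold GD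
  have : Matrix.gram ℂ (fun i => c • v i) = ((starRingEnd ℂ) c * c) • Matrix.gram ℂ v := by
    ext i j
    rw [Matrix.smul_apply, Matrix.gram_apply, Matrix.gram_apply, inner_smul_left,
      inner_smul_right, smul_eq_mul, mul_assoc]
  rw [this, Matrix.det_smul, norm_mul, norm_pow, norm_mul, RCLike.norm_conj, pow_mul, pow_two]

theorem GD_empty {ι : Type} [Fintype ι] [DecidableEq ι] [IsEmpty ι] (v : ι → E) : GD v = 1 := by
  unfold GD
  rw [Matrix.det_isEmpty, norm_one]

end gram

section proj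
variable {H : Type} [Fintype H]

/-- The projection to the first half of the coordinates. -/
noncomputable def prL : EuclideanSpace ℂ (H ⊕ H) →ₗ[ℂ] EuclideanSpace ℂ H where
  toFun x := WithLp.toLp 2 fun s => x (Sum.inl s)
  map_add' x y := rfl
  map_smul' c x := rfl

theorem prL_norm (x : EuclideanSpace ℂ (H ⊕ H)) : ‖prL x‖ ≤ ‖x‖ := by
  rw [EuclideanSpace.norm_eq, EuclideanSpace.norm_eq]
  apply Real.sqrt_le_sqrt
  rw [Fintype.sum_sum_type]
  have h1 : ∑ i : H, ‖(prL x) i‖ ^ 2 = ∑ i : H, ‖x (Sum.inl i)‖ ^ 2 := rfl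
  rw [h1]
  have h2 : 0 ≤ ∑ i : H, ‖x (Sum.inr i)‖ ^ 2 := Finset.sum_nonneg fun i _ => by positivity
  linarith

end proj

section lat
variable {K M S : Type} [Field K] [NumberField K] [Field M] [NumberField M] [Algebra K M]
  [Fintype S]

theorem mem_Lam (φ : K ≃+* K) (p : ℕ) (Y : S → M) (v : M × M) :
    v ∈ Lam φ p Y ↔ ∃ c, lam φ p Y c = v := by
  unfold Lam
  rw [LinearMap.mem_range]
  rfl

theorem Lam_FG (φ : K ≃+* K) (p : ℕ) (Y : S → M) : (Lam φ p Y).FG := by
  unfold Lam
  exact Module.Finite.iff_fg.1 (Module.Finite.range (lam φ p Y).toIntLinearMap)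

/-- The algebra map on the integers. -/
theorem int_map (c : 𝓞 K) : IsIntegral ℤ (algebraMap K M (c : K)) :=
  c.isIntegral_coe.map (algebraMap K M).toIntAlgHom

theorem lam_fst_LL (φ : K ≃+* K) (p : ℕ) (Y : S → M) (c : S → 𝓞 K) :
    (lam φ p Y c).1 ∈ LL Y := by
  change ∑ b, algebraMap K M (c b : K) * Y b ∈ Submodule.span (𝓞 M) (Set.range Y)
  refine Submodule.sum_mem _ fun b _ => ?_
  have h1 : algebraMap K M (c b : K) * Y b = (⟨_, int_map (M := M) (c b)⟩ : 𝓞 M) • Y b := by
    rw [Algebra.smul_def]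
    rfl
  rw [h1]
  exact Submodule.smul_mem _ _ (Submodule.subset_span ⟨b, rfl⟩)

theorem lam_fst_K (φ : K ≃+* K) (p : ℕ) (Y : S → M) (c : S → 𝓞 K) :
    (lam φ p Y c).1 ∈ Submodule.span K (Set.range Y) := by
  change ∑ b, algebraMap K M (c b : K) * Y b ∈ _
  refine Submodule.sum_mem _ fun b _ => ?_
  rw [← Algebra.smul_def]
  exact Submodule.smul_mem _ _ (Submodule.subset_span ⟨b, rfl⟩)

/-- A rational subspace which contains the values of the form contains the space generated. -/
theorem span_sub (φ : K ≃+* K) (p : ℕ) (Y : S → M) (A : Submodule ℚ M)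
    (hA : ∀ c, (lam φ p Y c).1 ∈ A) (m : M) (hm : m ∈ Submodule.span K (Set.range Y)) :
    m ∈ A := by
  classical
  have h0 : ∀ (k : K) (b : S), k • Y b ∈ A := by
    intro k b
    have halg : IsAlgebraic ℤ k :=
      (IsFractionRing.isAlgebraic_iff ℤ ℚ K).2 (Algebra.IsAlgebraic.isAlgebraic (R := ℚ) k)
    obtain ⟨n, hn, hint⟩ := halg.exists_integral_multiple
    let c0 : 𝓞 K := ⟨n • k, hint⟩
    have h1 : (lam φ p Y (Pi.single b c0)).1 = (n : ℚ) • (k • Y b) := by
      change ∑ b', algebraMap K M ((Pi.single b c0 : S → 𝓞 K) b' : K) * Y b' = _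
      rw [Finset.sum_eq_single b]
      · rw [Pi.single_eq_same]
        change algebraMap K M (n • k) * Y b = _
        rw [map_zsmul, zsmul_eq_mul, Algebra.smul_def, Algebra.smul_def, mul_assoc]
        congr 1
        simp
      · intro b' _ hb'
        rw [Pi.single_eq_of_ne hb']
        simp
      · intro hb
        exact absurd (Finset.mem_univ _) hb
    have h2 := hA (Pi.single b c0)
    rw [h1] at h2
    have h3 := A.smul_mem ((n : ℚ)⁻¹) h2
    rw [smul_smul, inv_mul_cancel₀ (by exact_mod_cast hn), one_smul] at h3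
    exact h3
  have h1 : ∀ k : K, k • m ∈ A := by
    induction hm using Submodule.span_induction with
    | mem x hx =>
      obtain ⟨b, rfl⟩ := hx
      exact fun k => h0 k b
    | zero => intro k; rw [smul_zero]; exact A.zero_mem
    | add x y _ _ hx hy => intro k; rw [smul_add]; exact A.add_mem (hx k) (hy k)
    | smul a x _ hx => intro k; rw [smul_smul]; exact hx (k * a)
  have := h1 1
  rwa [one_smul] at this

end lat

theorem pf_LOB (hBEX : T_BEX) (hBLE : T_BLE) (hGQ : T_GQ) (hCGI : T_CGI) (hSLP : T_SLP)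
    (hEMB : T_EMB) (hLLF : T_LLF) : T_LOB := by
  intro K M _ _ _ _ _ φ p hp hφ S T _ _ Y G hY hG hGs k z hz
  have hY'0 : (fun b => Y b ^ p) ≠ 0 := by
    intro h
    apply hY
    funext b
    have h1 : Y b ^ p = 0 := congrFun h b
    exact (pow_eq_zero_iff hp.ne_zero).1 h1
  obtain ⟨-, -, hwp⟩ := hLLF M S Y hY
  obtain ⟨-, -, hwp'⟩ := hLLF M S (fun b => Y b ^ p) hY'0
  obtain ⟨hE1, hE2⟩ := hEMB M (wt Y) (wt fun b => Y b ^ p) hwp hwp'
  obtain ⟨a, b, x, u, hx, hxu⟩ := hBEX (M × M) (Lam φ p Y) (Lam_FG φ p Y)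
    (Submodule.span ℚ (Lam φ p Y : Set (M × M)) ⊓ LinearMap.ker (LinearMap.fst ℚ M M))
    (Submodule.span ℚ (Lam φ p Y : Set (M × M))) inf_le_left le_rfl
  have hcard : k = a + b := by
    have h1 := finrank_span_eq_card hz.1
    have h2 := finrank_span_eq_card hxu.1
    rw [hz.2.1] at h1
    rw [hxu.2.1, h1] at h2
    simpa using h2
  have hxm : ∀ i, x i ∈ Lam φ p Y ∧ (x i).1 = 0 := by
    intro i
    have h1 := (hx.2.2 (x i)).1 (Submodule.subset_span ⟨i, rfl⟩)
    refine ⟨h1.1, ?_⟩
    have h2 := (Submodule.mem_inf.1 h1.2).2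
    exact LinearMap.mem_ker.1 h2
  have hum : ∀ l, u l ∈ Lam φ p Y := by
    intro l
    exact ((hxu.2.2 (u l)).1 (Submodule.subset_span ⟨Sum.inr l, rfl⟩)).1
  -- the first components of the second part
  have hsum := linearIndependent_sum.1 hxu.1
  have hfu : LinearIndependent ℚ fun l => (u l).1 := by
    have h1 : LinearIndependent ℚ u := hsum.2.1
    refine h1.map (f := LinearMap.fst ℚ M M) ?_
    rw [Submodule.disjoint_def]
    intro m hm hk
    have h2 : Disjoint (Submodule.span ℚ (Set.range x)) (Submodule.span ℚ (Set.range u)) :=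
      hsum.2.2
    refine (Submodule.disjoint_def.1 h2) m ?_ hm
    rw [hx.2.1]
    refine Submodule.mem_inf.2 ⟨?_, hk⟩
    have h3 : Submodule.span ℚ (Set.range u) ≤ Submodule.span ℚ (Set.range (Sum.elim x u)) := by
      apply Submodule.span_mono
      rintro _ ⟨l, rfl⟩
      exact ⟨Sum.inr l, rfl⟩
    rw [hxu.2.1] at h3
    exact h3 hm
  -- the basis is at least as good
  have hB : GD (fun i => vec2 M (wt Y) (wt fun b => Y b ^ p) (Sum.elim x u i)) ≤
      GD fun i => vec2 M (wt Y) (wt fun b => Y b ^ p) (z i) := by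
    refine hBLE (M × M) _ (Fin a ⊕ Fin b) (Fin k) (Lam φ p Y) _ _ (Sum.elim x u) z hxu hz.1 ?_ ?_
    · intro i
      exact (hz.2.2 (z i)).1 (Submodule.subset_span ⟨i, rfl⟩)
    · simp [hcard]
  have hB' : GD (Sum.elim (fun i => vec2 M (wt Y) (wt fun b => Y b ^ p) (x i))
      (fun i => vec2 M (wt Y) (wt fun b => Y b ^ p) (u i))) =
      GD (fun i => vec2 M (wt Y) (wt fun b => Y b ^ p) (Sum.elim x u i)) := by
    congr 1
    funext i
    rcases i with i | i <;> rfl
  -- the quotient
  have hli : LinearIndependent ℂ (Sum.elim (fun i => vec2 M (wt Y) (wt fun b => Y b ^ p) (x i))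
      (fun i => vec2 M (wt Y) (wt fun b => Y b ^ p) (u i))) := by
    have h1 := hE2 (a + b) (Sum.elim x u ∘ finSumFinEquiv.symm)
      (hxu.1.comp _ finSumFinEquiv.symm.injective)
    have h2 := h1.comp finSumFinEquiv finSumFinEquiv.injective
    have h3 : (Sum.elim (fun i => vec2 M (wt Y) (wt fun b => Y b ^ p) (x i))
      (fun i => vec2 M (wt Y) (wt fun b => Y b ^ p) (u i))) = (fun i =>
        vec2 M (wt Y) (wt fun b => Y b ^ p) ((Sum.elim x u ∘ finSumFinEquiv.symm) i)) ∘
        finSumFinEquiv := by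
      funext i
      simp only [Function.comp_apply, Equiv.symm_apply_apply]
      rcases i with i | i <;> rfl
    rw [h3]
    exact h2
  have hfuC : LinearIndependent ℂ fun l => vec M (wt Y) (u l).1 := hE1 b _ hfu
  have hli' : LinearIndependent ℂ (Sum.elim (Fin.elim0 : Fin 0 → EuclideanSpace ℂ (M →+* ℂ))
      (fun l => vec M (wt Y) (u l).1)) := by
    have h2 := hfuC.comp (Equiv.emptySum (Fin 0) (Fin b)) (Equiv.emptySum (Fin 0) (Fin b)).injective
    have h3 : (Sum.elim (Fin.elim0 : Fin 0 → EuclideanSpace ℂ (M →+* ℂ))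
      (fun l => vec M (wt Y) (u l).1)) = (fun l => vec M (wt Y) (u l).1) ∘
        (Equiv.emptySum (Fin 0) (Fin b)) := by
      funext i
      rcases i with i | i
      · exact i.elim0
      · rfl
    rw [h3]
    exact h2
  have hpr : ∀ v : M × M, prL (vec2 M (wt Y) (wt fun b => Y b ^ p) v) = vec M (wt Y) v.1 :=
    fun v => rfl
  have hQ := hGQ _ _ a b 0 (fun i => vec2 M (wt Y) (wt fun b => Y b ^ p) (x i))
    (fun i => vec2 M (wt Y) (wt fun b => Y b ^ p) (u i)) Fin.elim0
    (fun l => vec M (wt Y) (u l).1) prL 1 hli hli' prL_norm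
    (by
      intro i
      rw [hpr, (hxm i).2, map_zero]
      exact Submodule.zero_mem _)
    (by simp)
    (by
      intro j
      rw [hpr]
      have : ∑ l, (1 : Matrix (Fin b) (Fin b) ℂ) j l • vec M (wt Y) (u l).1 =
          vec M (wt Y) (u j).1 := by
        rw [Finset.sum_eq_single j]
        · rw [Matrix.one_apply_eq, one_smul]
        · intro l _ hl
          rw [Matrix.one_apply_ne hl.symm, zero_smul]
        · intro h
          exact absurd (Finset.mem_univ _) h
      rw [this, sub_self]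
      exact Submodule.zero_mem _)
  rw [GD_empty (Fin.elim0 : Fin 0 → EuclideanSpace ℂ (M →+* ℂ)), mul_one] at hQ
  have hQ' : GD (Sum.elim (Fin.elim0 : Fin 0 → EuclideanSpace ℂ (M →+* ℂ))
      (fun l => vec M (wt Y) (u l).1)) = GD (fun l => vec M (wt Y) (u l).1) := by
    rw [← GD_equiv (Equiv.emptySum (Fin 0) (Fin b)) (fun l => vec M (wt Y) (u l).1)]
    congr 1
    funext i
    rcases i with i | i
    · exact i.elim0
    · rfl
  rw [hQ'] at hQ
  -- the second components of the first part
  have hw : ∀ i, ∃ v ∈ LL fun b => Y b ^ p, (x i).2 = p * v := by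
    intro i
    obtain ⟨c, hc⟩ := (mem_Lam φ p Y (x i)).1 (hxm i).1
    have h1 := hCGI K M φ p hp hφ S Y c (by rw [hc]; exact (hxm i).2)
    rw [hc] at h1
    exact h1
  choose v hvm hv using hw
  have hvi : LinearIndependent ℚ v := by
    refine LinearIndependent.of_comp
      ((LinearMap.inr ℚ M M).comp ((p : ℚ) • (LinearMap.id : M →ₗ[ℚ] M))) ?_
    have h1 : ⇑((LinearMap.inr ℚ M M).comp ((p : ℚ) • (LinearMap.id : M →ₗ[ℚ] M))) ∘ v = x := by
      funext i
      refine Prod.ext ?_ ?_
      · exact (hxm i).2.symm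
      · change (p : ℚ) • v i = (x i).2
        rw [hv i, Algebra.smul_def]
        simp
    rw [h1]
    exact hx.1
  have hG1 : GD (fun i => vec2 M (wt Y) (wt fun b => Y b ^ p) (x i)) =
      (p : ℝ) ^ (2 * a) * GD (fun i => vec M (wt fun b => Y b ^ p) (v i)) := by
    have h1 : GD (fun i => vec2 M (wt Y) (wt fun b => Y b ^ p) (x i)) =
        GD (fun i => (p : ℂ) • vec M (wt fun b => Y b ^ p) (v i)) := by
      apply GD_inner
      intro i j
      rw [PiLp.inner_apply, PiLp.inner_apply, Fintype.sum_sum_type]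
      have h2 : ∀ s : M →+* ℂ, (vec2 M (wt Y) (wt fun b => Y b ^ p) (x i)) (Sum.inl s) = 0 := by
        intro s
        change ((wt Y s : ℝ) : ℂ) * s (x i).1 = 0
        rw [(hxm i).2, map_zero, mul_zero]
      have h3 : ∀ (i : Fin a) (s : M →+* ℂ),
          (vec2 M (wt Y) (wt fun b => Y b ^ p) (x i)) (Sum.inr s) =
          ((p : ℂ) • vec M (wt fun b => Y b ^ p) (v i)) s := by
        intro i s
        change (((wt fun b => Y b ^ p) s : ℝ) : ℂ) * s (x i).2 =
          (p : ℂ) * ((((wt fun b => Y b ^ p) s : ℝ) : ℂ) * s (v i))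
        rw [hv i, map_mul, map_natCast]
        ring
      simp only [h2, h3, inner_zero_left, Finset.sum_const_zero, zero_add]
    rw [h1, GD_scale, Fintype.card_fin, Complex.norm_natCast]
  have hS1 := hSLP M S T Y G hY hG hGs b (fun l => (u l).1) hfu (fun l => by
    obtain ⟨c, hc⟩ := (mem_Lam φ p Y (u l)).1 (hum l)
    change (u l).1 ∈ LL Y
    rw [← hc]
    exact lam_fst_LL φ p Y c)
  have hS2 := hSLP M S T (fun b => Y b ^ p) G hY'0 hG hGs a v hvi hvm
  have hlp : logHeight (fun b => Y b ^ p) = p * logHeight Y := logHeight_pow Y p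
  rw [hlp] at hS2
  refine ⟨b, a, by rw [hcard, add_comm], ?_, ?_⟩
  · -- the rank
    have h1 := finrank_span_eq_card hfu
    rw [Fintype.card_fin] at h1
    have h2 : Submodule.span ℚ (Set.range fun l => (u l).1) =
        (Submodule.span K (Set.range Y)).restrictScalars ℚ := by
      apply le_antisymm
      · rw [Submodule.span_le]
        rintro _ ⟨l, rfl⟩
        obtain ⟨c, hc⟩ := (mem_Lam φ p Y (u l)).1 (hum l)
        change (u l).1 ∈ Submodule.span K (Set.range Y)
        rw [← hc]
        exact lam_fst_K φ p Y c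
      · intro m hm
        refine span_sub φ p Y _ ?_ m hm
        intro c
        have h3 : lam φ p Y c ∈ Submodule.span ℚ (Set.range (Sum.elim x u)) := by
          rw [hxu.2.1]
          exact Submodule.subset_span ((mem_Lam φ p Y _).2 ⟨c, rfl⟩)
        have h4 : (Submodule.span ℚ (Set.range (Sum.elim x u))).map (LinearMap.fst ℚ M M) ≤
            Submodule.span ℚ (Set.range fun l => (u l).1) := by
          rw [Submodule.map_span, Submodule.span_le]
          rintro _ ⟨_, ⟨i, rfl⟩, rfl⟩
          rcases i with i | i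
          · change (x i).1 ∈ _
            rw [(hxm i).2]
            exact Submodule.zero_mem _
          · exact Submodule.subset_span ⟨i, rfl⟩
        exact h4 (Submodule.mem_map_of_mem h3)
    rw [h2] at h1
    rw [← h1]
    have h5 := Module.finrank_mul_finrank ℚ K (Submodule.span K (Set.range Y))
    rw [h5]
    rfl
  · calc _ ≤ GD (fun l => vec M (wt Y) (u l).1) *
        ((p : ℝ) ^ (2 * a) * GD (fun i => vec M (wt fun b => Y b ^ p) (v i))) := by
          apply mul_le_mul hS1 _ (by positivity) (norm_nonneg _)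
          exact mul_le_mul_of_nonneg_left hS2 (by positivity)
      _ ≤ _ := by
          rw [← hG1]
          exact (hQ.trans hB'.le).trans hB

end Pool.Agent.H50.REM
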